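import Mathlib

/-!
# Cantor sets in C^2 with equal nontrivial hulls (MP_cf7d1d_an): definitions and module statements
-/

set_option autoImplicit false

namespace Pool.Agent.H87.CS

open Set Complex Topology Filter
open scoped ContDiff

/-- `C^2` as in the frozen statement. -/
abbrev V2 := Fin 2 → ℂ

/-- The point `e^{2 pi i w} (1, z)`. -/
noncomputable def pt1 (z w : ℂ) : V2 :=
  ![Complex.exp (2 * Real.pi * I * w), z * Complex.exp (2 * Real.pi * I * w)]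

/-- The point `e^{2 pi i w} (z, 1)`. -/
noncomputable def pt2 (z w : ℂ) : V2 :=
  ![z * Complex.exp (2 * Real.pi * I * w), Complex.exp (2 * Real.pi * I * w)]

/-- A continuous family `F τ` of functions, `F τ` holomorphic off the slice `E_τ` of a closed
totally disconnected set `E`. -/
structure Fam (F : ℝ → ℂ → ℂ) (E : Set (ℝ × ℂ)) : Prop where
  cont : Continuous (fun q : ℝ × ℂ => F q.1 q.2)
  per : ∀ τ z, F (τ + 1) z = F τ z + 1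
  mono : ∀ z τ τ', τ ≤ τ' → (τ' - τ) / 2 ≤ (F τ' z).re - (F τ z).re
  closed : IsClosed E
  eper : ∀ τ z, (τ + 1, z) ∈ E ↔ (τ, z) ∈ E
  td : IsTotallyDisconnected E
  hol : ∀ τ z, (τ, z) ∉ E → ∀ᶠ w in 𝓝 z, DifferentiableAt ℂ (F τ) w
  rim : ∀ τ z τ' z', ‖z‖ = 2 → ‖z'‖ = 1 / 2 →
    2 * Real.exp (-(2 * Real.pi * (F τ z).im)) < Real.exp (-(2 * Real.pi * (F τ' z').im))

/-- The singular set in `C^2`. -/
def X0 (F : ℝ → ℂ → ℂ) (E : Set (ℝ × ℂ)) : Set V2 :=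
  {x | ∃ (τ : ℝ) (z : ℂ), (τ, z) ∈ E ∧ ‖z‖ ≤ 2 ∧ (x = pt1 z (F τ z) ∨ x = pt2 z (F τ z))}

/-- The star shaped body. -/
def W (F : ℝ → ℂ → ℂ) : Set V2 :=
  {x | ∃ (τ : ℝ) (z : ℂ) (t : ℝ), ‖z‖ ≤ 2 ∧ 0 ≤ t ∧ t ≤ 1 ∧
    (x = t • pt1 z (F τ z) ∨ x = t • pt2 z (F τ z))}

/-! ### Modules on hulls -/

/-- [CONTR] contraction lemma. -/
def T_contr : Prop :=
  ∀ (Y : Set V2), IsCompact Y → Y.Nonempty → ∀ p : MvPolynomial (Fin 2) ℂ,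
    (∀ y ∈ Y, ∀ t : ℝ, 0 ≤ t → t ≤ 1 → MvPolynomial.eval (t • y) p ≠ 0) →
    ∀ z : V2, (∀ q : MvPolynomial (Fin 2) ℂ, ∃ w ∈ Y,
      ‖MvPolynomial.eval z q‖ ≤ ‖MvPolynomial.eval w q‖) → MvPolynomial.eval z p ≠ 0

/-- [TOUCH] touching lemma. -/
def T_touch : Prop :=
  ∀ (F : ℝ → ℂ → ℂ) (E : Set (ℝ × ℂ)), Fam F E → ∀ p : MvPolynomial (Fin 2) ℂ,
    MvPolynomial.eval (0 : V2) p ≠ 0 →
    (∀ x ∈ X0 F E, ∀ t : ℝ, 0 ≤ t → t ≤ 1 → MvPolynomial.eval (t • x) p ≠ 0) →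
    ∀ x ∈ W F, MvPolynomial.eval x p ≠ 0

/-- [GEO1] `W` and `X0` are compact, `X0` is totally disconnected. -/
def T_geo1 : Prop :=
  ∀ (F : ℝ → ℂ → ℂ) (E : Set (ℝ × ℂ)), Fam F E →
    IsCompact (X0 F E) ∧ IsCompact (W F) ∧ IsTotallyDisconnected (X0 F E)

/-- [GEO2] interior of `W`. -/
def T_geo2 : Prop :=
  ∀ (F : ℝ → ℂ → ℂ) (E : Set (ℝ × ℂ)), Fam F E →
    (0 : V2) ∈ interior (W F) ∧ ∀ x ∈ X0 F E, ∀ t : ℝ, 0 ≤ t → t < 1 → t • x ∈ interior (W F)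

/-! ### Modules on blockers -/

/-- [PNT] maximum principle for the linear function `y ↦ <y - x, c>` on an algebraic curve. -/
def T_pnt : Prop :=
  ∀ (p : MvPolynomial (Fin 2) ℂ) (x c : V2) (s : ℝ), 0 ≤ s → MvPolynomial.eval x p = 0 →
    ∃ y : V2, MvPolynomial.eval y p = 0 ∧ ‖y 0 - x 0‖ ^ 2 + ‖y 1 - x 1‖ ^ 2 = s ^ 2 ∧
      0 ≤ ((y 0 - x 0) * (starRingEnd ℂ) (c 0) + (y 1 - x 1) * (starRingEnd ℂ) (c 1)).re

/-- [CELL] one step of the blocker construction. -/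
def T_cell : Prop :=
  ∀ (Q O : Set V2), IsCompact Q → IsOpen O → Q ⊆ O → ∀ ε : ℝ, 0 < ε →
    ∃ (n : ℕ) (C : Fin n → Set V2), (∀ i, IsCompact (C i)) ∧ (∀ i, C i ⊆ O) ∧
      (∀ i, ∀ x ∈ C i, ∀ y ∈ C i, dist x y ≤ ε) ∧ (∀ i j, i ≠ j → Disjoint (C i) (C j)) ∧
      ∀ p : MvPolynomial (Fin 2) ℂ, (∃ x ∈ Q, MvPolynomial.eval x p = 0) →
        ∃ i, ∃ y ∈ C i, MvPolynomial.eval y p = 0

/-- [BLK] blockers (Henkin). -/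
def T_blk : Prop :=
  ∀ (T O : Set V2), IsCompact T → IsOpen O → T ⊆ O →
    ∃ Y : Set V2, IsCompact Y ∧ Y ⊆ O ∧ IsTotallyDisconnected Y ∧
      ∀ p : MvPolynomial (Fin 2) ℂ, (∃ x ∈ T, MvPolynomial.eval x p = 0) →
        ∃ y ∈ Y, MvPolynomial.eval y p = 0

/-! ### Topological modules -/

/-- [UNI] union of totally disconnected compact sets accumulating at one of them. -/
def T_uni : Prop :=
  ∀ (X : Set V2) (Y : ℕ → Set V2), IsCompact X → IsTotallyDisconnected X →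
    (∀ k, IsCompact (Y k)) → (∀ k, IsTotallyDisconnected (Y k)) →
    (∀ ε : ℝ, 0 < ε → ∃ N, ∀ k, N ≤ k → ∀ y ∈ Y k, ∃ x ∈ X, dist y x < ε) →
    IsCompact (X ∪ ⋃ k, Y k) ∧ IsTotallyDisconnected (X ∪ ⋃ k, Y k)

/-- [PERF] adding small Cantor sets. -/
def T_perf : Prop :=
  ∀ (Y O T : Set V2), IsCompact Y → IsTotallyDisconnected Y → IsOpen O → Y ⊆ O →
    IsCompact T → T ⊆ O → ∀ ε : ℝ, 0 < ε →
    ∃ Y' : Set V2, Y ⊆ Y' ∧ Y' ⊆ O ∧ IsCompact Y' ∧ IsTotallyDisconnected Y' ∧ Preperfect Y' ∧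
      ∀ x ∈ T, ∃ y ∈ Y', dist x y < ε

/-- [BRO] Brouwer's characterisation of the Cantor space. -/
def T_bro : Prop :=
  ∀ K : Set V2, K.Nonempty → IsCompact K → IsTotallyDisconnected K → Preperfect K →
    Nonempty (↥K ≃ₜ (ℕ → Bool))

/-! ### Modules on the family -/

/-- `∂u/∂\bar z`. -/
noncomputable def dbar (u : ℂ → ℂ) (z : ℂ) : ℂ :=
  (1 / 2) * (fderiv ℝ u z 1 + I * fderiv ℝ u z I)

/-- [CAU] solution operator for `∂u/∂\bar z = g` (Cauchy transform). -/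
def T_cau : Prop :=
  ∃ C : (ℂ → ℂ) → (ℂ → ℂ), ∀ R : ℝ, 0 ≤ R → ∃ A : ℝ, 0 ≤ A ∧
    (∀ (g : ℂ → ℂ) (M : ℝ), ContDiff ℝ 1 g → (∀ z, R < ‖z‖ → g z = 0) → (∀ z, ‖g z‖ ≤ M) →
      Differentiable ℝ (C g) ∧ (∀ z, dbar (C g) z = g z) ∧ ∀ z, ‖C g z‖ ≤ A * M) ∧
    (∀ g g' : ℂ → ℂ, ContDiff ℝ 1 g → ContDiff ℝ 1 g' → (∀ z, R < ‖z‖ → g z = 0) →
      (∀ z, R < ‖z‖ → g' z = 0) → ∀ z, C (fun w => g w - g' w) z = C g z - C g' z)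

/-- [PER] periodic functions: `a false + a true = 1` (period 2), `β j` of period 1, the functions
`1 + (β j)'` have disjoint supports. -/
def T_per : Prop :=
  ∃ (a β : Bool → ℝ → ℝ),
    (∀ j, ContDiff ℝ ∞ (a j)) ∧ (∀ j, ContDiff ℝ ∞ (β j)) ∧
    (∀ j t, a j (t + 2) = a j t) ∧ (∀ j x, β j (x + 1) = β j x) ∧
    (∀ t, a false t + a true t = 1) ∧
    (∀ t, a false t ≠ 0 → -(1 / 2) ≤ Real.cos (Real.pi * t)) ∧
    (∀ t, a true t ≠ 0 → Real.cos (Real.pi * t) ≤ 1 / 2) ∧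
    (∀ x, 1 + deriv (β false) x ≠ 0 → 1 / 4 ≤ Real.sin (2 * Real.pi * x)) ∧
    (∀ x, 1 + deriv (β true) x ≠ 0 → Real.sin (2 * Real.pi * x) ≤ -(1 / 4))

/-- Staggered bricks. -/
def Brick (N : ℕ) (l : ℝ) : Set (ℝ × ℝ) :=
  {q | (-(1 / 2) ≤ Real.cos (2 * Real.pi * N * q.1) ∧ 1 / 4 ≤ Real.sin (2 * Real.pi * (q.2 / l))) ∨
    (Real.cos (2 * Real.pi * N * q.1) ≤ 1 / 2 ∧ Real.sin (2 * Real.pi * (q.2 / l)) ≤ -(1 / 4))}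

/-- A smooth stage of the construction of the family: `∂F/∂\bar z = m`. -/
structure St (F m : ℝ → ℂ → ℂ) : Prop where
  cont : Continuous (fun q : ℝ × ℂ => F q.1 q.2)
  per : ∀ τ z, F (τ + 1) z = F τ z + 1
  diff : ∀ τ, Differentiable ℝ (F τ)
  db : ∀ τ z, dbar (F τ) z = m τ z
  smooth : ContDiff ℝ ∞ (fun q : ℝ × ℂ => m q.1 q.2)
  mper : ∀ τ z, m (τ + 1) z = m τ z
  supp : ∀ τ z, 3 < ‖z‖ → m τ z = 0

/-- [STEP] one step (cut in the direction `x = re z` or `y = im z`). -/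
def T_step : Prop :=
  ∀ F m : ℝ → ℂ → ℂ, St F m → ∀ (ax : Bool) (N : ℕ), 1 ≤ N → ∀ η : ℝ, 0 < η →
    ∃ l : ℝ, 0 < l ∧ l ≤ η ∧ ∃ F' m' : ℝ → ℂ → ℂ, St F' m' ∧
      (∀ τ z, ‖F' τ z - F τ z‖ ≤ η) ∧
      (∀ τ τ' z, ‖(F' τ z - F τ z) - (F' τ' z - F τ' z)‖ ≤ η * |τ - τ'|) ∧
      (∀ τ z, m' τ z ≠ 0 → m τ z ≠ 0 ∧ (τ, if ax then z.im else z.re) ∈ Brick N l)

/-- [FAM] the family exists. -/
def T_fam : Prop := ∃ (F : ℝ → ℂ → ℂ) (E : Set (ℝ × ℂ)), Fam F E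

end Pool.Agent.H87.CS
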