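import Mathlib
import Pool.Agent.H87.CS.Targets

/-!
# Final assembly: from the modules to the theorem (MP_cf7d1d_an, S06217)
-/

set_option autoImplicit false

namespace Pool.Agent.H87.CS

open Set Complex Topology Filter
open scoped ContDiff Pointwise

theorem W_star {F : ℝ → ℂ → ℂ} {x : V2} (hx : x ∈ W F) {t : ℝ} (h0 : 0 ≤ t) (h1 : t ≤ 1) :
    t • x ∈ W F := by
  obtain ⟨τ, z, s, hz, hs0, hs1, h⟩ := hx
  refine ⟨τ, z, t * s, hz, mul_nonneg h0 hs0, mul_le_one₀ h1 hs0 hs1, ?_⟩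
  rcases h with h | h
  · left; rw [h, smul_smul]
  · right; rw [h, smul_smul]

theorem X0_sub_W {F : ℝ → ℂ → ℂ} {E : Set (ℝ × ℂ)} : X0 F E ⊆ W F := by
  rintro x ⟨τ, z, -, hz, h⟩
  refine ⟨τ, z, 1, hz, zero_le_one, le_refl _, ?_⟩
  rcases h with h | h
  · left; rw [h, one_smul]
  · right; rw [h, one_smul]

theorem fin (hcontr : T_contr) (htouch : T_touch) (hgeo1 : T_geo1) (hgeo2 : T_geo2)
    (hblk : T_blk) (huni : T_uni) (hperf : T_perf) (hbro : T_bro) (hfam : T_fam) :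
    ∃ K : Set (Fin 2 → ℂ),
      Nonempty (↥K ≃ₜ (ℕ → Bool)) ∧
      {z : Fin 2 → ℂ | ∀ p : MvPolynomial (Fin 2) ℂ,
          ∃ w ∈ K, ‖MvPolynomial.eval z p‖ ≤ ‖MvPolynomial.eval w p‖} ≠ K ∧
      {z : Fin 2 → ℂ | ∀ p : MvPolynomial (Fin 2) ℂ,
          ∃ w ∈ K, ‖MvPolynomial.eval z p‖ ≤ ‖MvPolynomial.eval w p‖} =
      {z : Fin 2 → ℂ | ∀ p : MvPolynomial (Fin 2) ℂ,
          MvPolynomial.eval z p = 0 → ∃ w ∈ K, MvPolynomial.eval w p = 0} := by
  obtain ⟨F, E, hF⟩ := hfam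
  obtain ⟨hXc, hWc, hXtd⟩ := hgeo1 F E hF
  obtain ⟨h0W, hint⟩ := hgeo2 F E hF
  set X : Set V2 := X0 F E with hX
  obtain ⟨r, hr, hball⟩ := Metric.mem_nhds_iff.1 (mem_interior_iff_mem_nhds.1 h0W)
  -- X is nonempty
  have hXne : X.Nonempty := by
    by_contra hne
    rw [Set.not_nonempty_iff_eq_empty] at hne
    have h := htouch F E hF (MvPolynomial.X 0 - MvPolynomial.C ((r / 2 : ℝ) : ℂ))
      (by
        simp only [map_sub, MvPolynomial.eval_X, MvPolynomial.eval_C, Pi.zero_apply, zero_sub,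
          ne_eq, neg_eq_zero, Complex.ofReal_eq_zero]
        positivity)
      (by
        intro x hx
        rw [← hX, hne] at hx
        exact absurd hx (Set.notMem_empty x))
      ![((r / 2 : ℝ) : ℂ), 0]
      (hball (by
        rw [Metric.mem_ball, dist_zero_right]
        refine (pi_norm_lt_iff hr).2 (fun i => ?_)
        fin_cases i
        · simp only [Fin.zero_eta, Fin.isValue, Matrix.cons_val_zero]
          rw [Complex.norm_real, Real.norm_eq_abs, abs_of_pos (by positivity)]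
          linarith
        · simpa using hr))
    apply h
    simp
  obtain ⟨M, hM0, hM⟩ : ∃ M : ℝ, 0 < M ∧ ∀ x ∈ X, ‖x‖ ≤ M := by
    obtain ⟨M, hM⟩ := hXc.isBounded.exists_norm_le
    exact ⟨max M 1, lt_of_lt_of_le one_pos (le_max_right _ _), fun x hx =>
      (hM x hx).trans (le_max_left _ _)⟩
  -- the compact sets T k
  let T : ℕ → Set V2 := fun k =>
    (fun q : ℝ × V2 => q.1 • q.2) '' (Icc (1 - (1 / 2 : ℝ) ^ k) (1 - (1 / 2 : ℝ) ^ (k + 1)) ×ˢ X)
  have hpow : ∀ k : ℕ, 0 < (1 / 2 : ℝ) ^ k := fun k => by positivity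
  have hpow1 : ∀ k : ℕ, (1 / 2 : ℝ) ^ k ≤ 1 := fun k => pow_le_one₀ (by norm_num) (by norm_num)
  have hTc : ∀ k, IsCompact (T k) := fun k =>
    (isCompact_Icc.prod hXc).image (continuous_fst.smul continuous_snd)
  have hTint : ∀ k, T k ⊆ interior (W F) := by
    rintro k _ ⟨⟨t, x⟩, ⟨ht, hx⟩, rfl⟩
    refine hint x hx t ?_ ?_
    · have := ht.1
      have h2 := hpow1 k
      simp only at this
      linarith
    · have := ht.2
      have h2 := hpow (k + 1)
      simp only at this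
      linarith
  let O : ℕ → Set V2 := fun k => interior (W F) ∩ Metric.thickening ((1 / 2 : ℝ) ^ k) (T k)
  have hOo : ∀ k, IsOpen (O k) := fun k => isOpen_interior.inter Metric.isOpen_thickening
  have hTO : ∀ k, T k ⊆ O k := fun k x hx =>
    ⟨hTint k hx, Metric.self_subset_thickening (hpow k) _ hx⟩
  choose Yb hYbc hYbO hYbtd hYbb using fun k => hblk (T k) (O k) (hTc k) (hOo k) (hTO k)
  choose Y hYbY hYO hYc hYtd hYp hYT using fun k =>
    hperf (Yb k) (O k) (T k) (hYbc k) (hYbtd k) (hOo k) (hYbO k) (hTc k) (hTO k)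
      ((1 / 2 : ℝ) ^ k) (hpow k)
  -- distances
  have hdist : ∀ k, ∀ y ∈ Y k, ∃ x ∈ X, dist y x < (1 / 2 : ℝ) ^ k * (1 + M) := by
    intro k y hy
    obtain ⟨w, ⟨⟨t, x⟩, ⟨ht, hx⟩, rfl⟩, hw⟩ := Metric.mem_thickening_iff.1 (hYO k hy).2
    refine ⟨x, hx, ?_⟩
    have h1 : dist (t • x) x ≤ (1 / 2 : ℝ) ^ k * M := by
      have h2 : t • x - x = (t - 1) • x := by rw [sub_smul, one_smul]
      rw [dist_eq_norm, h2, norm_smul, Real.norm_eq_abs]
      have h3 : |t - 1| ≤ (1 / 2 : ℝ) ^ k := by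
        have h4 := ht.1
        have h5 := ht.2
        have h6 := hpow (k + 1)
        simp only at h4 h5
        rw [abs_le]
        constructor <;> linarith
      exact mul_le_mul h3 (hM x hx) (norm_nonneg _) (hpow k).le
    have h2 := dist_triangle y (t • x) x
    simp only at hw
    calc dist y x ≤ dist y (t • x) + dist (t • x) x := h2
      _ < (1 / 2 : ℝ) ^ k + (1 / 2 : ℝ) ^ k * M := by linarith
      _ = (1 / 2 : ℝ) ^ k * (1 + M) := by ring
  have hsmall : ∀ ε : ℝ, 0 < ε → ∃ N : ℕ, ∀ k, N ≤ k → (1 / 2 : ℝ) ^ k * (1 + M) < ε := by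
    intro ε hε
    obtain ⟨N, hN⟩ := exists_pow_lt_of_lt_one (show 0 < ε / (1 + M) by positivity)
      (show (1 / 2 : ℝ) < 1 by norm_num)
    refine ⟨N, fun k hk => ?_⟩
    have h1 : (1 / 2 : ℝ) ^ k ≤ (1 / 2 : ℝ) ^ N :=
      pow_le_pow_of_le_one (by norm_num) (by norm_num) hk
    have h2 : (1 / 2 : ℝ) ^ k < ε / (1 + M) := lt_of_le_of_lt h1 hN
    rwa [lt_div_iff₀ (by positivity)] at h2
  have hacc : ∀ ε : ℝ, 0 < ε → ∃ N, ∀ k, N ≤ k → ∀ y ∈ Y k, ∃ x ∈ X, dist y x < ε := by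
    intro ε hε
    obtain ⟨N, hN⟩ := hsmall ε hε
    refine ⟨N, fun k hk y hy => ?_⟩
    obtain ⟨x, hx, h⟩ := hdist k y hy
    exact ⟨x, hx, h.trans (hN k hk)⟩
  obtain ⟨hKc, hKtd⟩ := huni X Y hXc hXtd hYc hYtd hacc
  set K : Set V2 := X ∪ ⋃ k, Y k with hK
  have hYK : ∀ k, Y k ⊆ K := fun k => (Set.subset_iUnion Y k).trans Set.subset_union_right
  have hXK : X ⊆ K := Set.subset_union_left
  have hKne : K.Nonempty := hXne.mono hXK
  have hKW : K ⊆ W F := by
    rintro x (hx | hx)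
    · exact X0_sub_W hx
    · obtain ⟨k, hk⟩ := Set.mem_iUnion.1 hx
      exact interior_subset (hYO k hk).1
  -- perfect
  have hKp : Preperfect K := by
    have hcase : ∀ k, ∀ y ∈ Y k, AccPt y (𝓟 K) := fun k y hy =>
      (hYp k y hy).mono (Filter.principal_mono.2 (hYK k))
    rintro y (hy | hy)
    · by_cases h : ∃ k, y ∈ Y k
      · obtain ⟨k, hk⟩ := h
        exact hcase k y hk
      · push Not at h
        rw [accPt_iff_nhds]
        intro U hU
        obtain ⟨ε, hε, hεU⟩ := Metric.mem_nhds_iff.1 hU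
        obtain ⟨N, hN⟩ := hsmall ε hε
        have hT : (1 - (1 / 2 : ℝ) ^ (N + 1)) • y ∈ T N := by
          refine ⟨(1 - (1 / 2 : ℝ) ^ (N + 1), y), ⟨⟨?_, le_refl _⟩, hy⟩, rfl⟩
          have : (1 / 2 : ℝ) ^ (N + 1) ≤ (1 / 2 : ℝ) ^ N :=
            pow_le_pow_of_le_one (by norm_num) (by norm_num) (Nat.le_succ N)
          simp only
          linarith
        obtain ⟨w, hw, hd⟩ := hYT N _ hT
        refine ⟨w, ⟨hεU ?_, hYK N hw⟩, ?_⟩
        · rw [Metric.mem_ball]
          have h1 : dist ((1 - (1 / 2 : ℝ) ^ (N + 1)) • y) y ≤ (1 / 2 : ℝ) ^ N * M := by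
            have h2 : (1 - (1 / 2 : ℝ) ^ (N + 1)) • y - y = (-(1 / 2 : ℝ) ^ (N + 1)) • y := by
              rw [sub_smul, one_smul, neg_smul]; abel
            rw [dist_eq_norm, h2, norm_smul, Real.norm_eq_abs, abs_neg,
              abs_of_pos (hpow (N + 1))]
            exact mul_le_mul (pow_le_pow_of_le_one (by norm_num) (by norm_num) (Nat.le_succ N))
              (hM y hy) (norm_nonneg _) (hpow N).le
          have h3 := dist_triangle w ((1 - (1 / 2 : ℝ) ^ (N + 1)) • y) y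
          rw [dist_comm] at hd
          calc dist w y ≤ _ := h3
            _ < (1 / 2 : ℝ) ^ N + (1 / 2 : ℝ) ^ N * M := by linarith
            _ = (1 / 2 : ℝ) ^ N * (1 + M) := by ring
            _ < ε := hN N le_rfl
        · rintro rfl
          exact h N hw
    · obtain ⟨k, hk⟩ := Set.mem_iUnion.1 hy
      exact hcase k y hk
  -- the key property
  have key : ∀ p : MvPolynomial (Fin 2) ℂ, (∀ y ∈ K, MvPolynomial.eval y p ≠ 0) →
      ∀ x ∈ W F, MvPolynomial.eval x p ≠ 0 := by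
    intro p hp
    have h1 : ∀ x ∈ X, ∀ t : ℝ, 0 ≤ t → t ≤ 1 → MvPolynomial.eval (t • x) p ≠ 0 := by
      intro x hx t ht0 ht1
      rcases eq_or_lt_of_le ht1 with h | h
      · rw [h, one_smul]
        exact hp x (hXK hx)
      · obtain ⟨k, hk1, hk2⟩ := exists_nat_pow_near_of_lt_one (show 0 < 1 - t by linarith)
          (show 1 - t ≤ 1 by linarith) (show (0 : ℝ) < 1 / 2 by norm_num)
          (show (1 / 2 : ℝ) < 1 by norm_num)
        intro hzero
        obtain ⟨y, hy, hy0⟩ := hYbb k p ⟨t • x, ⟨(t, x), ⟨⟨by simp only; linarith,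
          by simp only; linarith⟩, hx⟩, rfl⟩, hzero⟩
        exact hp y (hYK k (hYbY k hy)) hy0
    have h0 : MvPolynomial.eval (0 : V2) p ≠ 0 := by
      obtain ⟨x, hx⟩ := hXne
      have := h1 x hx 0 le_rfl zero_le_one
      rwa [zero_smul] at this
    exact htouch F E hF p h0 h1
  have hsub : {z : Fin 2 → ℂ | ∀ p : MvPolynomial (Fin 2) ℂ,
          MvPolynomial.eval z p = 0 → ∃ w ∈ K, MvPolynomial.eval w p = 0} ⊆
      {z : Fin 2 → ℂ | ∀ p : MvPolynomial (Fin 2) ℂ,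
          ∃ w ∈ K, ‖MvPolynomial.eval z p‖ ≤ ‖MvPolynomial.eval w p‖} := by
    intro z hz q
    obtain ⟨w, hw, h⟩ := hz (q - MvPolynomial.C (MvPolynomial.eval z q)) (by simp)
    refine ⟨w, hw, le_of_eq ?_⟩
    simp only [map_sub, MvPolynomial.eval_C] at h
    rw [sub_eq_zero.1 h]
  have hWr : W F ⊆ {z : Fin 2 → ℂ | ∀ p : MvPolynomial (Fin 2) ℂ,
          MvPolynomial.eval z p = 0 → ∃ w ∈ K, MvPolynomial.eval w p = 0} := by
    intro z hz p hp0
    by_contra hcon
    push Not at hcon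
    exact key p hcon z hz hp0
  refine ⟨K, hbro K hKne hKc hKtd hKp, ?_, ?_⟩
  · intro heq
    have hWK : W F ⊆ K := (hWr.trans hsub).trans heq.subset
    have hpre : IsPreconnected (Metric.ball (0 : V2) r) := (convex_ball 0 r).isPreconnected
    have hsing := hKtd (Metric.ball (0 : V2) r) (hball.trans hWK) hpre
    have h1 : (![((r / 2 : ℝ) : ℂ), 0] : V2) ∈ Metric.ball (0 : V2) r := by
      rw [Metric.mem_ball, dist_zero_right]
      refine (pi_norm_lt_iff hr).2 (fun i => ?_)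
      fin_cases i
      · simp only [Fin.zero_eta, Fin.isValue, Matrix.cons_val_zero]
        rw [Complex.norm_real, Real.norm_eq_abs, abs_of_pos (by positivity)]
        linarith
      · simpa using hr
    have h2 : (0 : V2) ∈ Metric.ball (0 : V2) r := Metric.mem_ball_self hr
    have h3 := congrFun (hsing h1 h2) 0
    simp only [Matrix.cons_val_zero, Pi.zero_apply, Complex.ofReal_eq_zero] at h3
    linarith
  · apply Set.Subset.antisymm _ hsub
    intro z hz p hp0
    by_contra hcon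
    push Not at hcon
    have hW := key p hcon
    exact hcontr K hKc hKne p (fun y hy t ht0 ht1 => hW _ (W_star (hKW hy) ht0 ht1)) z hz hp0

end Pool.Agent.H87.CS
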